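import Pool.Agent.helper12.TZ.SpecI

/-!
# Row tz:IFN (MP_baa4d7_al): the sums over the subgroups of the quotient with a given intersection with `W`
-/

set_option autoImplicit false

namespace Pool.Agent.TZ

open Pool.Agent.helper58.DC Pool.Agent.DI Pool.Agent.GR Pool.Agent.OB

theorem IFN_swap {ι : Type} [Finite ι] (f : ℤ → ι → ℤ) (hf : ∀ i, {d | f d i ≠ 0}.Finite) :
    ∑ᶠ d, ∑ᶠ i, f d i = ∑ᶠ i, ∑ᶠ d, f d i := by
  have : Fintype ι := Fintype.ofFinite ι
  have h1 : ∀ d, ∑ᶠ i, f d i = ∑ i, f d i := fun d => finsum_eq_sum_of_fintype _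
  have h2 : ∑ᶠ i, ∑ᶠ d, f d i = ∑ i, ∑ᶠ d, f d i := finsum_eq_sum_of_fintype _
  rw [finsum_congr h1, h2]
  exact finsum_sum_comm Finset.univ (fun d i => f d i) (fun i _ => hf i)

theorem IFN_index {A : Type} [Group A] (W C U : Subgroup A)
    (hn : ∀ w ∈ W, ∀ c ∈ C, w * c * w⁻¹ ∈ C) (hU : U ≤ W) : C.relIndex U ∣ C.relIndex W := by
  have hN : (C.subgroupOf W).Normal := by
    constructor
    intro c hc w
    rw [Subgroup.mem_subgroupOf] at hc ⊢
    exact hn w.1 w.2 c.1 hc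
  have h1 : (C.subgroupOf W).relIndex (U.subgroupOf W ⊔ C.subgroupOf W) = (C.subgroupOf W).relIndex (U.subgroupOf W) :=
    Subgroup.relIndex_sup_right _ _
  have h2 : (C.subgroupOf W).relIndex (U.subgroupOf W) = C.relIndex U := Subgroup.relIndex_subgroupOf hU
  have h3 := Subgroup.relIndex_mul_index (H := C.subgroupOf W) (K := U.subgroupOf W ⊔ C.subgroupOf W) le_sup_right
  rw [h1, h2] at h3
  exact ⟨_, h3.symm⟩

theorem IFN (hIHY : IHY_stmt) (hIMW : IMW_stmt) (hRE : RE_stmt) (hFN : FN_stmt) : IFN_stmt := by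
  intro p M hS G E A _ _ _ _ _ X W C hCW hCn hCc hCi hl hO χ hχ D x hD z hz hzc hzn U hU
  have hA : Finite A := Finite.of_surjective X.proj X.proj_surjective
  have hpp : Fact p.Prime := ⟨hS.1⟩
  have hfin : ∀ V : Subgroup A, {d : ℤ | altSum X p M χ d V ≠ 0}.Finite := hFN G E A X p M χ
  rw [IFN_swap (fun d (V : {V : Subgroup A // V ⊓ W = U}) => altSum X p M χ d V.1) (fun V => hfin V.1)]
  refine hIMW p A (fun V => ∑ᶠ d : ℤ, altSum X p M χ d V) W ?_ U hU
  intro U' hU'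
  have h1 := IFN_swap (fun d (V : {V : Subgroup A // U' ≤ V}) => altSum X p M χ d V.1) (fun V => hfin V.1)
  have h2 : ∑ᶠ d : ℤ, ∑ᶠ V : {V : Subgroup A // U' ≤ V}, altSum X p M χ d V.1 =
      ∑ᶠ d : ℤ, altSum (resE X U') p M χ d ⊤ :=
    finsum_congr fun d => (hRE G E A X p M χ hχ d U').symm
  have h3 : ∑ᶠ V : {V : Subgroup A // U' ≤ V}, ∑ᶠ d : ℤ, altSum X p M χ d V.1 =
      ∑ᶠ d : ℤ, altSum (resE X U') p M χ d ⊤ := by
    rw [← h2]
    exact h1.symm
  show (p : ℤ) ∣ ∑ᶠ V : {V : Subgroup A // U' ≤ V}, ∑ᶠ d : ℤ, altSum X p M χ d V.1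
  rw [h3]
  have hN : (C.subgroupOf U').Normal := by
    constructor
    intro c hc w
    rw [Subgroup.mem_subgroupOf] at hc ⊢
    exact hCn w.1 (hU' w.2) c.1 hc
  let f : C.subgroupOf U' →* C :=
    { toFun := fun c => ⟨c.1.1, c.2⟩
      map_one' := rfl
      map_mul' := fun _ _ => rfl }
  have hf : Function.Injective f := by
    intro a b hab
    apply Subtype.ext
    apply Subtype.ext
    exact congrArg (fun c : C => c.1) hab
  have hcyc : IsCyclic (C.subgroupOf U') := isCyclic_of_injective f hf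
  have hcard : Nat.card (C.subgroupOf U') ∣ Nat.card C := Subgroup.card_dvd_of_injective f hf
  have hidx : ∃ k : ℕ, (C.subgroupOf U').index = p ^ k := by
    obtain ⟨k, hk⟩ := hCi
    have hd : C.relIndex U' ∣ p ^ k := hk ▸ IFN_index W C U' hCn hU'
    obtain ⟨j, -, hj⟩ := (Nat.dvd_prime_pow hpp.out).mp hd
    exact ⟨j, hj⟩
  exact hIHY p M hS G _ U' (resE X U') (C.subgroupOf U') hcyc hidx
    (fun l hl1 hl2 => hl l hl1 (hl2.trans hcard)) hO χ hχ D x hD z hz hzc hzn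

end Pool.Agent.TZ
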