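import Pool.Agent.helper12.TZ.SpecI

/-!
# Row tz:IHY (MP_baa4d7_al): a cyclic normal subgroup of the quotient with a `p`-group on top
-/

set_option autoImplicit false

namespace Pool.Agent.TZ

open Pool.Agent.helper58.DC Pool.Agent.DI Pool.Agent.GR Pool.Agent.OB

theorem IHY (hIPG : IPG_stmt) (hICY : ICY_stmt) (hRE : RE_stmt) (hST : ST_stmt) : IHY_stmt := by
  intro p M hS G E A _ _ _ _ _ X C _ hCc hCi hl hO χ hχ D x hD z hz hzc hzn
  have hA : Finite A := Finite.of_surjective X.proj X.proj_surjective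
  have hpp : Fact p.Prime := ⟨hS.1⟩
  by_cases hst : Stable X M χ
  · have h1 := hIPG p M G E A X C hCi χ hχ hst
    have h2 : ∑ᶠ d : ℤ, ∑ᶠ V : {V : Subgroup A // C ≤ V}, altSum X p M χ d V.1 =
        ∑ᶠ d : ℤ, altSum (resE X C) p M χ d ⊤ :=
      finsum_congr fun d => (hRE G E A X p M χ hχ d C).symm
    rw [h2] at h1
    have h3 := hICY p M hS G _ C (resE X C) hCc hl hO χ hχ D x hD z hz hzc hzn
    exact (dvd_sub_left h3).mp h1
  · have h0 : ∀ d : ℤ, altSum X p M χ d ⊤ = 0 := by
      intro d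
      by_contra h
      exact hst (hST G E A X p M χ hχ d h)
    rw [finsum_congr h0, finsum_zero]
    exact dvd_zero _

end Pool.Agent.TZ
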